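import Pool.Agent.Q266.RP.Stm

/-! Project RP, job DESC (helper21). -/

namespace Pool.Agent.Q21.RP

open Module Pool.Agent.Q266.RP

theorem desc : S_DESC := by
  refine ⟨?_, ?_⟩
  · intro G V _ _ _ ρ C W hW hne hirr
    let σ : Representation ℂ C W :=
      { toFun := fun c => (ρ (c : G)).restrict (hW (c : G) c.2)
        map_one' := by
          apply LinearMap.ext
          intro w
          apply Subtype.ext
          show ρ ((1 : C) : G) (w : V) = (w : V)
          rw [OneMemClass.coe_one, map_one]
          rfl
        map_mul' := by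
          intro a b
          apply LinearMap.ext
          intro w
          apply Subtype.ext
          show ρ ((a * b : C) : G) (w : V) = ρ (a : G) (ρ (b : G) (w : V))
          rw [MulMemClass.coe_mul, map_mul]
          rfl }
    refine ⟨σ, ⟨(Submodule.nontrivial_iff_ne_bot).2 hne, ?_⟩, fun c => rfl⟩
    intro U hU
    rcases hirr (U.map W.subtype) (Submodule.map_subtype_le W U) (by
        rintro c hc _ ⟨u, hu, rfl⟩
        exact ⟨σ ⟨c, hc⟩ u, hU ⟨c, hc⟩ u hu, rfl⟩) with h | h
    · left
      rw [Submodule.eq_bot_iff]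
      intro u hu
      have h1 : (u : V) ∈ U.map W.subtype := ⟨u, hu, rfl⟩
      rw [h, Submodule.mem_bot] at h1
      exact Subtype.ext h1
    · right
      rw [Submodule.eq_top_iff']
      intro w
      have h1 : (w : V) ∈ U.map W.subtype := by rw [h]; exact w.2
      obtain ⟨u, hu, hu'⟩ := h1
      have h2 : u = w := Subtype.ext hu'
      exact h2 ▸ hu
  · intro G V _ _ _ ρ N _ hirr hN
    let σ : Representation ℂ (G ⧸ N) V := QuotientGroup.lift N ρ (fun n hn => hN n hn)
    have hσ : ∀ g : G, σ (QuotientGroup.mk g) = ρ g := fun g => rfl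
    refine ⟨σ, ⟨hirr.1, fun W hW => hirr.2 W fun g w hw => ?_⟩, hσ⟩
    rw [← hσ g]
    exact hW _ w hw

end Pool.Agent.Q21.RP
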